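import Pool.Agent.Helper60.KS.St

/-! CountE2 (cells with few products `q m`, `m ~ X^b` prime, `b = (1-e)/2`): the numerical lemma. -/

set_option autoImplicit false

namespace Pool.Agent.Helper35.KE
open Pool.Agent.Helper60.KS

/-- numerical lemma for the classes of zeros with `|P(ρ)| ~ M^(x-y)`, `M = X^b`, `e = 1 - 2b` -/
def NumericE2 (e : ℝ) : Prop := ∀ ε0 : ℝ, 0 < ε0 → ε0 ≤ 1/100 → ∀ ε x n y r ϱ : ℝ, 0 < ε → ε ≤ ε0 / 10 ^ 5 →
  ε0 ≤ x → x ≤ 0.4 + ε → 0 < n → n ≤ yy x + ε →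
  (∀ k : ℕ, 1 ≤ k → (k : ℝ) ≤ 4 / n → r ≤ max (2 * x * (k * n)) (1 - k * n * (2 - 6 * x)) + ε) →
  r ≤ 2 * (1 - e) * y + e + ε →
  (r ≤ 2 * (1 + e) * x - ε →
    ϱ ≤ max (e + r - 2 * (1 + e) * x) (4 * (e + r - 2 * (1 + e) * x) - 1) + ε) →
  (∀ j : ℕ, 1 ≤ j → (j : ℝ) ≤ 4 / n → r + 2 * x * (j * n) ≤ 2 * ((1 + e) * x + (1 - e) * y) - ε →
    ϱ ≤ max (1 + r - 2 * ((1 + e) * x + (1 - e) * y) - j * n * (1 - 2 * x))
      (4 * (1 + r - 2 * ((1 + e) * x + (1 - e) * y) - j * n * (1 - 2 * x)) - 1) + ε) →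
  ϱ ≤ 0.34

lemma fin {w ε ϱ : ℝ} (h : ϱ ≤ max w (4 * w - 1) + ε) (hw : w ≤ 0.3348) (hε : ε ≤ 1 / 10000) : ϱ ≤ 0.34 := by
  have h1 : max w (4 * w - 1) ≤ 0.3392 := max_le (by linarith) (by linarith)
  linarith

/-- largest multiple below `c` -/
lemma mult {n c : ℝ} (hn : 0 < n) (hc : n ≤ c) : ∃ K : ℕ, 1 ≤ K ∧ (K : ℝ) * n ≤ c ∧ c < ((K : ℝ) + 1) * n := by
  refine ⟨⌊c / n⌋₊, ?_, ?_, ?_⟩
  · rw [Nat.one_le_floor_iff, le_div_iff₀ hn]; linarith
  · have h0 : 0 ≤ c / n := div_nonneg (by linarith) hn.le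
    have := Nat.floor_le h0
    rwa [le_div_iff₀ hn] at this
  · have := Nat.lt_floor_add_one (c / n)
    rwa [div_lt_iff₀ hn] at this

theorem numericE2 (e : ℝ) (he0 : 0 ≤ e) (he1 : e ≤ 0.04) : NumericE2 e := by
  intro ε0 h0 h1 ε x n y r ϱ hε0 hε hx0 hx1 hn0 hn hH hP1 hP2 hS
  have hεs : ε ≤ 1 / 10 ^ 7 := by linarith
  have hxp : 0 < x := by linarith
  have hex0 : 0 ≤ e * x := by positivity
  by_cases hr : r ≤ 2 * (1 + e) * x - ε
  · exact fin (hP2 hr) (by linarith) (by linarith)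
  rw [not_le] at hr
  -- the S bound for a multiple m
  have key : ∀ K : ℕ, 1 ≤ K → (K : ℝ) * n ≤ 1.04 → 2 * x * (K * n) ≤ 2 * (1 + e) * x - e - 2 * ε →
      (1 + e) - 2 * (1 + e) * x - K * n * (1 - 2 * x) + ε ≤ 0.3348 → ϱ ≤ 0.34 := by
    intro K hK hK1 hK2 hK3
    refine fin (hS K hK ?_ (by linarith)) ?_ (by linarith)
    · rw [le_div_iff₀ hn0]; linarith
    · linarith
  have hy1 : n ≤ 1/3 / (1 - 2 * x) + ε ∧ n ≤ 2/7 / (5/7 - x) + ε := by
    unfold yy at hn
    exact ⟨by linarith [min_le_left ((1/3) / (1 - 2 * x)) ((2/7) / (5/7 - x))],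
      by linarith [min_le_right ((1/3) / (1 - 2 * x)) ((2/7) / (5/7 - x))]⟩
  obtain ⟨hy1, hy2⟩ := hy1
  rcases le_or_gt 0.22 x with hx | hx
  · -- x ≥ 0.22
    have hn1 : n ≤ 0.92 := by
      have h3 : 2/7 / (5/7 - x) ≤ 0.91 := by
        rw [div_le_iff₀ (by linarith)]; linarith
      linarith
    obtain ⟨K, hK, hK1, hK2⟩ := mult (c := 0.948) hn0 (by linarith)
    have hKr : (1:ℝ) ≤ K := by exact_mod_cast hK
    have hm : 0.474 ≤ (K:ℝ) * n := by nlinarith
    have hex : e * 0.22 ≤ e * x := mul_le_mul_of_nonneg_left hx he0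
    have hxm : x * (K * n) ≤ x * 0.948 := mul_le_mul_of_nonneg_left hK1 hxp.le
    have hm2 : 0.474 * (1 - 2 * x) ≤ (K:ℝ) * n * (1 - 2 * x) := mul_le_mul_of_nonneg_right hm (by linarith)
    refine key K hK (by linarith) ?_ ?_
    · linarith
    · linarith
  · have hn1 : n ≤ 0.6 := by
      have h3 : 1/3 / (1 - 2 * x) ≤ 0.5953 := by
        rw [div_le_iff₀ (by linarith)]; linarith
      linarith
    obtain ⟨K, hK, hK1, hK2⟩ := mult (c := 0.999 + e) hn0 (by linarith)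
    set m : ℝ := (K:ℝ) * n with hm
    have hKr : (1:ℝ) ≤ K := by exact_mod_cast hK
    have hm0 : 0 < m := by positivity
    have hm1 : n ≤ m := by rw [hm]; nlinarith
    have hex : e * x ≤ e * 0.22 := mul_le_mul_of_nonneg_left hx.le he0
    have hsm : m * (2 - 6 * x) ≤ 1 - 2 * (1 + e) * x + 2 * ε := by
      by_contra hcon
      rw [not_le] at hcon
      have h4 := hH K hK (by rw [le_div_iff₀ hn0]; linarith)
      have h5 : max (2 * x * m) (1 - m * (2 - 6 * x)) < 2 * (1 + e) * x - 2 * ε := by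
        refine max_lt ?_ (by linarith)
        have h6 : x * m ≤ x * (0.999 + e) := mul_le_mul_of_nonneg_left hK1 hxp.le
        have h7 : 1000 * ε < x := by linarith
        linarith
      linarith
    have hm74 : m ≤ 0.83 := by
      by_contra hcon
      rw [not_le] at hcon
      have : 0.83 * (2 - 6 * x) ≤ m * (2 - 6 * x) := mul_le_mul_of_nonneg_right hcon.le (by linarith)
      linarith
    have hxm : x * m ≤ x * 0.83 := mul_le_mul_of_nonneg_left hm74 hxp.le
    have hcond : 0.16 ≤ x → 2 * x * m ≤ 2 * (1 + e) * x - e - 2 * ε := by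
      intro hx16
      have : e * 0.16 ≤ e * x := mul_le_mul_of_nonneg_left hx16 he0
      linarith
    rcases Nat.lt_or_ge 1 K with h2 | h2
    · have hK2r : (2:ℝ) ≤ K := by exact_mod_cast h2
      have h8 : 2 * n ≤ m := by rw [hm]; nlinarith
      have h9 : 0.666 * (1 + e) ≤ m := by
        have : (K + 1 : ℝ) * n = m + n := by rw [hm]; ring
        rw [this] at hK2
        linarith
      have h9' : 0.666 * (1 + e) * (2 - 6 * x) ≤ m * (2 - 6 * x) := mul_le_mul_of_nonneg_right h9 (by linarith)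
      have h10 : 0.16 ≤ x := by nlinarith
      have h11 : 0.666 * (1 + e) * (1 - 2 * x) ≤ m * (1 - 2 * x) := mul_le_mul_of_nonneg_right h9 (by linarith)
      refine key K hK (by linarith) (hcond h10) ?_
      have hex1 : e * 0.16 ≤ e * x := mul_le_mul_of_nonneg_left h10 he0
      linarith
    · have hK' : K = 1 := by omega
      have hmn : m = n := by rw [hm, hK']; simp
      have h9 : 0.999 + e ≤ 2 * m := by
        have : (K + 1 : ℝ) * n = m + n := by rw [hm]; ring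
        rw [this] at hK2
        linarith
      have h12 : (n - ε) * (1 - 2 * x) ≤ 1/3 := by
        have h11 : n - ε ≤ 1/3 / (1 - 2 * x) := by linarith
        rwa [le_div_iff₀ (by linarith)] at h11
      have h13 : (0.4995 - ε) * (1 - 2 * x) ≤ (n - ε) * (1 - 2 * x) :=
        mul_le_mul_of_nonneg_right (by linarith) (by linarith)
      have h10 : 0.16 ≤ x := by nlinarith
      have h14 : (1 + e) * (1 - 2 * x) ≤ (2 * m + 0.001) * (1 - 2 * x) :=
        mul_le_mul_of_nonneg_right (by linarith) (by linarith)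
      refine key K hK (by linarith) (hcond h10) ?_
      rw [hmn] at h14
      have h15 : ε * (1 - 2 * x) ≤ ε := by nlinarith
      have h16 : (K:ℝ) * n * (1 - 2 * x) = n * (1 - 2 * x) := by rw [← hm, hmn]
      rw [h16]
      linarith

end Pool.Agent.Helper35.KE
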