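import Pool.Agent.Helper60.KC.ClassBound
import Pool.Agent.Helper60.KS.StE2
import Pool.Agent.Helper35.KE.Numeric

/-! CountE2: the bound for one class of zeros, with the factor `P(ρ) = ∑_{M < p ≤ 2M} p^(-ρ)`, `M ~ X^θ`,
`0.48 ≤ θ ≤ 1/2`. -/

set_option autoImplicit false
set_option maxHeartbeats 4000000
open Filter Topology
open scoped Classical

namespace Pool.Agent.Helper35.KE
open Pool.Agent.Helper60.KS Pool.Agent.Helper60.KC

/-- coefficients of the prime polynomial -/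
noncomputable def prc (n : ℕ) : ℂ := if n.Prime then 1 else 0

/-- one class of zeros: height `T^(1/2+2d)`, real parts near `1 - x`, detected by `DP g N 2`, and with
`V ≤ |P(ρ)| ≤ 2 V` -/
def ClassBoundE2a (θ : ℝ) : Prop := ∀ ε0 δ d : ℝ, 0 < ε0 → ε0 ≤ 1/100 → δ = ε0 / 10 ^ 7 → 0 < d → d ≤ δ → ∃ X0 : ℝ,
  ∀ (X x V : ℝ) (M : ℕ) (Z : Finset ℂ) (c : ℂ → ℂ) (g : ℕ → ℂ) (N : ℕ) (U : Finset ℝ), X0 ≤ X → ε0 ≤ x →
  x ≤ 0.4 + δ → InStrip Z (1 - x) (1 - x + δ) (X ^ (1/2 + 2 * d) + 1) → Spaced1 Z →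
  (∀ n, ‖g n‖ ≤ (n.divisors.card : ℝ)) →
  X ^ δ / 2 ≤ N → (N : ℝ) ≤ X ^ (yy x / 2 + 45 * δ) → (∀ ρ ∈ Z, 1 / (16 * Real.log X) ≤ ‖DP g N 2 ρ‖) →
  X ^ θ / 4 ≤ M → (M : ℝ) ≤ X ^ θ → X ^ (-2 : ℝ) ≤ V →
  (∀ ρ ∈ Z, V ≤ ‖DP prc M 2 ρ‖ ∧ ‖DP prc M 2 ρ‖ ≤ 2 * V) →
  (∀ ρ ∈ Z, ‖c ρ‖ ≤ Real.log X ^ 2) → (∀ u ∈ U, Real.log X ≤ u ∧ u ≤ Real.log X + 1) →
  SpacedR U (1 / X ^ (1/2 + 2 * d)) →
  (∀ u ∈ U, 1 / Real.log X ^ 6 ≤ ‖∑ ρ ∈ Z, c ρ * DP prc M 2 ρ * Complex.exp ((ρ - 1) * (u : ℂ))‖) →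
  (U.card : ℝ) ≤ X ^ (0.17 : ℝ)

/-- hypotheses of `ClassBoundE2a` -/
structure Cls2 (θ ε0 δ d X x V : ℝ) (M : ℕ) (Z : Finset ℂ) (c : ℂ → ℂ) (g : ℕ → ℂ) (N : ℕ) (U : Finset ℝ) :
    Prop where
  ht0 : 0.48 ≤ θ
  ht1 : θ ≤ 1/2
  hx0 : ε0 ≤ x
  hx1 : x ≤ 0.4 + δ
  hs : InStrip Z (1 - x) (1 - x + δ) (X ^ (1/2 + 2 * d) + 1)
  hsp : Spaced1 Z
  hg : ∀ n, ‖g n‖ ≤ (n.divisors.card : ℝ)
  hN0 : X ^ δ / 2 ≤ N
  hN1 : (N : ℝ) ≤ X ^ (yy x / 2 + 45 * δ)
  hD : ∀ ρ ∈ Z, 1 / (16 * Real.log X) ≤ ‖DP g N 2 ρ‖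
  hM0 : X ^ θ / 4 ≤ M
  hM1 : (M : ℝ) ≤ X ^ θ
  hV : X ^ (-2 : ℝ) ≤ V
  hP : ∀ ρ ∈ Z, V ≤ ‖DP prc M 2 ρ‖ ∧ ‖DP prc M 2 ρ‖ ≤ 2 * V
  hc : ∀ ρ ∈ Z, ‖c ρ‖ ≤ Real.log X ^ 2
  hU : ∀ u ∈ U, Real.log X ≤ u ∧ u ≤ Real.log X + 1
  hUs : SpacedR U (1 / X ^ (1/2 + 2 * d))
  hS : ∀ u ∈ U, 1 / Real.log X ^ 6 ≤ ‖∑ ρ ∈ Z, c ρ * DP prc M 2 ρ * Complex.exp ((ρ - 1) * (u : ℂ))‖

lemma Cls2.toCls {θ ε0 δ d X x V : ℝ} {M : ℕ} {Z : Finset ℂ} {c : ℂ → ℂ} {g : ℕ → ℂ} {N : ℕ} {U : Finset ℝ}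
    (h : Cls2 θ ε0 δ d X x V M Z c g N U) : Cls ε0 δ d X x Z (fun _ => 0) g N ∅ where
  hx0 := h.hx0
  hx1 := h.hx1
  hs := h.hs
  hsp := h.hsp
  hg := h.hg
  hN0 := h.hN0
  hN1 := h.hN1
  hD := h.hD
  hc := fun ρ _ => by simp; positivity
  hU := by simp
  hUs := by intro u hu; simp at hu
  hS := by simp

lemma prc_le (n : ℕ) : ‖prc n‖ ≤ 1 := by
  unfold prc; split_ifs <;> simp

/-- size of `M` -/
lemma logM {θ ε0 δ d X x V : ℝ} {M : ℕ} {Z : Finset ℂ} {c : ℂ → ℂ} {g : ℕ → ℂ} {N : ℕ} {U : Finset ℝ}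
    (h : Cls2 θ ε0 δ d X x V M Z c g N U) (hX : 8 ≤ X) : 1 ≤ M ∧ Real.log M ≤ θ * Real.log X ∧
      θ * Real.log X - 2 ≤ Real.log M ∧ (M : ℝ) ≤ X ^ (1/2 + 2 * d) ∨ d ≤ 0 := by
  rcases le_or_gt d 0 with hd | hd
  · right; exact hd
  left
  have hX0 : (0:ℝ) < X := by linarith
  have hp : (0:ℝ) < X ^ θ := Real.rpow_pos_of_pos hX0 _
  have hMp : (0:ℝ) < M := by linarith [h.hM0]
  have hM1 : 1 ≤ M := by
    have : 0 < M := by exact_mod_cast hMp
    omega
  refine ⟨hM1, ?_, ?_, ?_⟩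
  · rw [← Real.log_rpow hX0]; exact Real.log_le_log hMp h.hM1
  · have h3 : Real.log (X ^ θ / 4) ≤ Real.log M := Real.log_le_log (by positivity) h.hM0
    rw [Real.log_div (by positivity) (by norm_num), Real.log_rpow hX0] at h3
    have h4 : Real.log 4 ≤ 2 := by
      rw [show (4:ℝ) = 2 ^ 2 by norm_num, Real.log_pow]; have := Real.log_two_lt_d9; push_cast; linarith
    linarith
  · refine le_trans h.hM1 ?_
    exact Real.rpow_le_rpow_of_exponent_le (by linarith) (by linarith [h.ht1])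

/-- mean value bound for `P` -/
lemma Q1 (hMV : MVCount) {θ ε0 δ d : ℝ} (hp : Par ε0 δ d) :
    ∀ᶠ X : ℝ in atTop, ∀ (x V : ℝ) (M : ℕ) (Z : Finset ℂ) (c : ℂ → ℂ) (g : ℕ → ℂ) (N : ℕ) (U : Finset ℝ),
    Cls2 θ ε0 δ d X x V M Z c g N U → Z.Nonempty →
    Real.log Z.card + 2 * Real.log V ≤ (1/2 - θ + 2 * θ * x) * Real.log X + 40 * δ * Real.log X := by
  have hδ := hp.dpos
  have hδ' := hp.dsmall
  have hd4 := hp.h4
  have hd5 := hp.h5
  obtain ⟨C, hC, hmv⟩ := hMV 2 (by norm_num)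
  filter_upwards [base hp, small (Real.log C + 10 + Real.log 2) 2 δ hδ] with X hb hsm x V M Z c g N U h hZ
  obtain ⟨h8, hl, hN, hq0, hq1, hq2⟩ := hb x Z _ g N _ h.toCls
  have hx0 := h.hx0
  have hx1 := h.hx1
  have h1 := hp.h1
  obtain ⟨hT1, hT2, hT3⟩ := logT h8 hd4
  have hX0 : (0:ℝ) < X := by linarith
  rcases logM h h8 with ⟨hM, hM1, hM2, hM3⟩ | hd0
  swap
  · linarith
  have hl0 : 0 < Real.log X := by linarith
  have hZc : (0:ℝ) < Z.card := by exact_mod_cast hZ.card_pos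
  have hVp : 0 < V := lt_of_lt_of_le (Real.rpow_pos_of_pos hX0 _) h.hV
  set l := Real.log X with hldef
  set T := X ^ (1/2 + 2 * d) + 1 with hTdef
  have hmain := hmv Z prc M 1 V (1 - x) (1 - x + δ) T (1 / l) hM
    (by linarith) (by positivity) (by rw [div_le_div_iff₀ hl0 (by norm_num)]; linarith) (by linarith)
    (by linarith) (by linarith) (by have := hp.h3; linarith) hVp zero_le_one prc_le h.hs h.hsp
    (fun ρ hρ => (h.hP ρ hρ).1)
  have hMp : (0:ℝ) < (M:ℝ) := by exact_mod_cast hM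
  have hlg := Real.log_le_log (by positivity) hmain
  have hTM : T + (M:ℝ) ≤ 2 * T := by linarith
  have hTp : 0 < T := by linarith
  have hlTM : Real.log (T + M) ≤ Real.log 2 + Real.log T := by
    rw [← Real.log_mul (by norm_num) hTp.ne']
    exact Real.log_le_log (by linarith) hTM
  rw [Real.log_mul hZc.ne' (by positivity), Real.log_pow, Real.log_mul (by positivity) (by positivity),
    Real.log_mul (by positivity) (by positivity), Real.log_div (by positivity) (by positivity),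
    Real.log_mul hC.ne' (by positivity), Real.log_pow, Real.log_pow, Real.log_div (by norm_num) hl0.ne',
    Real.log_one, Real.log_rpow hMp] at hlg
  simp only [Nat.cast_ofNat] at hlg
  have htl : θ * l ≤ 1/2 * l := mul_le_mul_of_nonneg_right h.ht1 hl0.le
  have hqq : (2 * (1 / l)) * Real.log M ≤ 4 := by
    have : (2 * (1 / l)) * Real.log M = 2 * Real.log M / l := by ring
    rw [this, div_le_iff₀ hl0]; linarith
  have hexp : (1 - 2 * (1 - x) + 2 * (1 / l)) * Real.log M = -((1 - 2 * x) * Real.log M) +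
      (2 * (1 / l)) * Real.log M := by ring
  rw [hexp] at hlg
  have hm : (1 - 2 * x) * (θ * l - 2) ≤ (1 - 2 * x) * Real.log M :=
    mul_le_mul_of_nonneg_left hM2 (by linarith)
  have hdl : d * l ≤ δ * l := mul_le_mul_of_nonneg_right hd5 hl0.le
  have hdl0 : 0 ≤ δ * l := by positivity
  have hm2 : (1 - 2 * x) * (θ * l - 2) = θ * l - 2 * (θ * x * l) - 2 * (1 - 2 * x) := by ring
  rw [hm2] at hm
  have : (1/2 - θ + 2 * θ * x) * l = l / 2 - θ * l + 2 * (θ * x * l) := by ring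
  rw [this]
  linarith

/-- general form of the S-lemma in a class -/
lemma SG (hS : SLemma) {θ ε0 δ d : ℝ} (hp : Par ε0 δ d) (hh : ℕ) (hh1 : 1 ≤ hh) :
    ∀ᶠ X : ℝ in atTop, ∀ (x V : ℝ) (M : ℕ) (Z : Finset ℂ) (c : ℂ → ℂ) (g : ℕ → ℂ) (N : ℕ) (U : Finset ℝ),
    Cls2 θ ε0 δ d X x V M Z c g N U → Z.Nonempty → U.Nonempty →
    ∀ (b : ℕ → ℂ) (Q : ℕ) (B VG ω : ℝ), 1 ≤ Q → Real.log Q ≤ 2 * Real.log X → 0 < B → 0 < VG →
    (∀ n, ‖b n‖ ≤ B) → (∀ ρ ∈ Z, VG ≤ ‖DP b Q hh ρ‖) →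
    2 * Real.log V + 2 * Real.log B - 2 * Real.log VG ≤ ω →
    Real.log Z.card + ω + 2 * x * Real.log Q ≤ (2 * x - 10 * δ) * Real.log X →
    Real.log U.card ≤ max (Real.log X / 2 + Real.log Z.card + ω - 2 * x * Real.log X - Real.log Q * (1 - 2 * x))
      (4 * (Real.log X / 2 + Real.log Z.card + ω - 2 * x * Real.log X - Real.log Q * (1 - 2 * x)) -
        Real.log X / 2) + 40 * δ * Real.log X := by
  have hδ := hp.dpos
  have hδ' := hp.dsmall
  have hd4 := hp.h4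
  have hd5 := hp.h5
  obtain ⟨C, hC, hmv⟩ := hS hh (δ / 10) hh1 (by positivity)
  filter_upwards [base hp, small (Real.log C + 6 * Real.log 2 + 1) 16 δ hδ] with
    X hb hsm x V M Z c g N U h hZ hU b Q B VG ω hQ hkq hB hVG hb1 hb2 hω hcond
  obtain ⟨h8, hl, hN, hq0, hq1, hq2⟩ := hb x Z _ g N _ h.toCls
  have hx0 := h.hx0
  have hx1 := h.hx1
  have h1 := hp.h1
  have h3 := hp.h3
  obtain ⟨hT1, hT2, hT3⟩ := logT h8 hd4
  have hl0 : 0 < Real.log X := by linarith
  have hZc : (0:ℝ) < Z.card := by exact_mod_cast hZ.card_pos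
  have hUc : (0:ℝ) < U.card := by exact_mod_cast hU.card_pos
  have hTX := T_le h8 hl hd4 (by linarith)
  have hX0 : (0:ℝ) < X := by linarith
  have hVp : 0 < V := lt_of_lt_of_le (Real.rpow_pos_of_pos hX0 _) h.hV
  have hQpos : (0:ℝ) < (Q : ℝ) := by exact_mod_cast hQ
  have hQX : (Q : ℝ) ≤ X ^ 2 := by
    rw [← Real.log_le_log_iff hQpos (by positivity), Real.log_pow]
    simpa using hkq
  have hspT : SpacedR U (1 / (X ^ (1/2 + 2 * d) + 1)) := by
    intro u hu u' hu' hne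
    refine le_trans ?_ (h.hUs u hu u' hu' hne)
    apply one_div_le_one_div_of_le (by linarith) (by linarith)
  set l := Real.log X with hldef
  set T := X ^ (1/2 + 2 * d) + 1 with hTdef
  have hTp : 0 < T := by linarith
  have hlQ0 : 0 ≤ Real.log Q := Real.log_nonneg (by exact_mod_cast hQ)
  have hcP : ∀ ρ ∈ Z, ‖c ρ * DP prc M 2 ρ‖ ≤ l ^ 2 * (2 * V) := by
    intro ρ hρ
    rw [norm_mul]
    exact mul_le_mul (h.hc ρ hρ) (h.hP ρ hρ).2 (norm_nonneg _) (by positivity)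
  have hmain := hmv X T (1 - x) (1 - x + δ) B VG (l ^ 2 * (2 * V)) (1 / l ^ 6) Z (fun ρ => c ρ * DP prc M 2 ρ)
    b Q U h8 (by linarith) hTX hQ hQX (by linarith) (by linarith) (by linarith) (by linarith) hVG hB.le
    (by positivity) (by positivity) hb1 h.hs h.hsp hb2 hcP h.hU hspT h.hS
  set P : ℝ := C * X ^ (δ / 10) * Z.card * (l ^ 2 * (2 * V)) ^ 2 * B ^ 2 * T * X ^ (2 * (1 - x + δ - 1)) *
    (Q : ℝ) ^ (-2 * (1 - x)) with hPdef
  set D : ℝ := (1 / l ^ 6) ^ 2 * VG ^ 2 with hDdef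
  have hPp : 0 < P := by positivity
  have hDp : 0 < D := by positivity
  have hlogP : Real.log P = Real.log C + δ / 10 * l + Real.log Z.card + 4 * Real.log l + 2 * Real.log 2 +
      2 * Real.log V + 2 * Real.log B + Real.log T + 2 * (-x + δ) * l - 2 * (1 - x) * Real.log Q := by
    rw [hPdef, Real.log_mul (by positivity) (by positivity), Real.log_mul (by positivity) (by positivity),
      Real.log_mul (by positivity) hTp.ne', Real.log_mul (by positivity) (by positivity),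
      Real.log_mul (by positivity) (by positivity), Real.log_mul (by positivity) hZc.ne',
      Real.log_mul hC.ne' (by positivity), Real.log_pow, Real.log_mul (by positivity) (by positivity),
      Real.log_mul (by norm_num) hVp.ne', Real.log_pow, Real.log_pow,
      Real.log_rpow hX0, Real.log_rpow hX0, Real.log_rpow hQpos]
    simp only [Nat.cast_ofNat]
    ring
  have hlogD : Real.log D = -(12 * Real.log l) + 2 * Real.log VG := by
    rw [hDdef, Real.log_mul (by positivity) (by positivity), Real.log_pow, Real.log_pow,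
      Real.log_div (by norm_num) (by positivity), Real.log_pow, Real.log_one]
    simp only [Nat.cast_ofNat]
    ring
  have hdl0 : 0 ≤ δ * l := by positivity
  have hdl : d * l ≤ δ * l := mul_le_mul_of_nonneg_right hd5 hl0.le
  have hlog2 : 0 ≤ Real.log 2 := Real.log_nonneg (by norm_num)
  have hc1 : P * (Q:ℝ) ^ 2 / T ≤ D / 2 := by
    rw [← Real.log_le_log_iff (by positivity) (by positivity), Real.log_div (by positivity) hTp.ne',
      Real.log_mul hPp.ne' (by positivity), Real.log_pow, Real.log_div hDp.ne' (by norm_num), hlogP, hlogD]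
    simp only [Nat.cast_ofNat]
    linarith
  set M' : ℝ := 1 + ((U.card : ℝ) ^ 3 / T) ^ (1/4 : ℝ) with hM'def
  have hM'p : 0 < M' := by positivity
  have hc2 : D * U.card ≤ 2 * P * Q * M' := by
    have e1 : D * (U.card : ℝ) ^ 2 ≤ P * (U.card * Q * M' + (U.card : ℝ) ^ 2 * (Q:ℝ) ^ 2 / T) := by
      calc D * (U.card : ℝ) ^ 2 = (U.card : ℝ) ^ 2 * (1 / l ^ 6) ^ 2 * VG ^ 2 := by
            rw [hDdef]; ring
        _ ≤ _ := hmain
    have e2 : P * (U.card * Q * M' + (U.card : ℝ) ^ 2 * (Q:ℝ) ^ 2 / T) =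
        U.card * (P * Q * M') + (U.card : ℝ) ^ 2 * (P * (Q:ℝ) ^ 2 / T) := by ring
    have e3 : (U.card : ℝ) ^ 2 * (P * (Q:ℝ) ^ 2 / T) ≤ (U.card : ℝ) ^ 2 * (D / 2) :=
      mul_le_mul_of_nonneg_left hc1 (by positivity)
    have e4 : U.card * (D * U.card) ≤ U.card * (2 * P * Q * M') := by
      rw [e2] at e1; linarith
    exact le_of_mul_le_mul_left e4 hUc
  have hlg := Real.log_le_log (by positivity) hc2
  rw [Real.log_mul hDp.ne' hUc.ne', Real.log_mul (by positivity) hM'p.ne', Real.log_mul (by positivity) hQpos.ne',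
    Real.log_mul (by norm_num) hPp.ne', hlogP, hlogD] at hlg
  rcases log_add_le one_pos (show 0 < ((U.card : ℝ) ^ 3 / T) ^ (1/4 : ℝ) by positivity) with hc | hc
  · refine le_trans ?_ (add_le_add_left (le_max_left _ _) _)
    rw [Real.log_one] at hc
    linarith
  · refine le_trans ?_ (add_le_add_left (le_max_right _ _) _)
    rw [Real.log_rpow (by positivity), Real.log_div (by positivity) hTp.ne', Real.log_pow] at hc
    simp only [Nat.cast_ofNat] at hc
    linarith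

/-- S-lemma with the powers of the detecting polynomial -/
lemma P4' (hS : SLemma) (hP : PowDP) {θ ε0 δ d : ℝ} (hp : Par ε0 δ d) (k : ℕ) (hk : 1 ≤ k) :
    ∀ᶠ X : ℝ in atTop, ∀ (x V : ℝ) (M : ℕ) (Z : Finset ℂ) (c : ℂ → ℂ) (g : ℕ → ℂ) (N : ℕ) (U : Finset ℝ),
    Cls2 θ ε0 δ d X x V M Z c g N U → Z.Nonempty → U.Nonempty → (k : ℝ) * Real.log N ≤ 2 * Real.log X →
    Real.log Z.card + 2 * Real.log V + 2 * x * (k * Real.log N) ≤ (2 * x - 50 * δ) * Real.log X →
    Real.log U.card ≤ max (Real.log X / 2 + Real.log Z.card + 2 * Real.log V - 2 * x * Real.log X -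
        k * Real.log N * (1 - 2 * x))
      (4 * (Real.log X / 2 + Real.log Z.card + 2 * Real.log V - 2 * x * Real.log X - k * Real.log N * (1 - 2 * x)) -
        Real.log X / 2) + 44 * δ * Real.log X := by
  have hδ := hp.dpos
  have hδ' := hp.dsmall
  obtain ⟨C1, hC1, hpc⟩ := pow_class hP hp k hk (δ / 10) (by positivity)
  filter_upwards [base hp, hpc, SG hS hp (2 ^ k) (Nat.one_le_two_pow),
    small (2 * Real.log C1 + 2 * k * Real.log 16) (2 * k) (δ / 2) (by positivity)] with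
    X hb hpc hsg hsm x V M Z c g N U h hZ hU hkq hcond
  obtain ⟨h8, hl, hN, hq0, hq1, hq2⟩ := hb x Z _ g N _ h.toCls
  obtain ⟨b, hb1, hb2⟩ := hpc x Z _ g N _ h.toCls
  have hN' : (1:ℝ) ≤ N := by exact_mod_cast hN
  have hQ : 1 ≤ N ^ k := Nat.one_le_pow _ _ (by omega)
  have hl0 : 0 < Real.log X := by linarith
  have hkk : (1:ℝ) ≤ k := by exact_mod_cast hk
  have hlogQ : Real.log ((N ^ k : ℕ) : ℝ) = k * Real.log N := by push_cast; rw [Real.log_pow]
  have hdl0 : 0 ≤ δ * Real.log X := by positivity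
  have hdq : δ / 10 * Real.log N ≤ δ / 10 * Real.log X := mul_le_mul_of_nonneg_left hq2 (by positivity)
  have h1 := hsg x V M Z c g N U h hZ hU b (N ^ k) (C1 * (N:ℝ) ^ (δ / 10)) ((1 / (16 * Real.log X)) ^ k)
    (2 * Real.log V + δ * Real.log X) hQ (by rw [hlogQ]; exact hkq) (by positivity) (by positivity) hb1 hb2
    (by
      rw [Real.log_mul hC1.ne' (by positivity), Real.log_rpow (by linarith), Real.log_pow,
        Real.log_div (by norm_num) (by positivity), Real.log_one, Real.log_mul (by norm_num) hl0.ne']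
      linarith)
    (by rw [hlogQ]; linarith)
  rw [hlogQ] at h1
  refine le_trans h1 ?_
  set A := Real.log X / 2 + Real.log Z.card + 2 * Real.log V - 2 * x * Real.log X - k * Real.log N * (1 - 2 * x)
    with hA
  have hm1 := le_max_left A (4 * A - Real.log X / 2)
  have hm2 := le_max_right A (4 * A - Real.log X / 2)
  have : max (Real.log X / 2 + Real.log Z.card + (2 * Real.log V + δ * Real.log X) - 2 * x * Real.log X -
      k * Real.log N * (1 - 2 * x)) (4 * (Real.log X / 2 + Real.log Z.card + (2 * Real.log V + δ * Real.log X) -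
      2 * x * Real.log X - k * Real.log N * (1 - 2 * x)) - Real.log X / 2) ≤
      max A (4 * A - Real.log X / 2) + 4 * (δ * Real.log X) := by
    apply max_le
    · linarith
    · linarith
  linarith

/-- S-lemma with `P` itself -/
lemma P5' (hS : SLemma) {θ ε0 δ d : ℝ} (hp : Par ε0 δ d) :
    ∀ᶠ X : ℝ in atTop, ∀ (x V : ℝ) (M : ℕ) (Z : Finset ℂ) (c : ℂ → ℂ) (g : ℕ → ℂ) (N : ℕ) (U : Finset ℝ),
    Cls2 θ ε0 δ d X x V M Z c g N U → Z.Nonempty → U.Nonempty →
    Real.log Z.card ≤ ((2 - 2 * θ) * x - 50 * δ) * Real.log X →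
    Real.log U.card ≤ max ((1/2 - θ) * Real.log X + Real.log Z.card - (2 - 2 * θ) * x * Real.log X)
      (4 * ((1/2 - θ) * Real.log X + Real.log Z.card - (2 - 2 * θ) * x * Real.log X) - Real.log X / 2) +
        44 * δ * Real.log X := by
  have hδ := hp.dpos
  have hδ' := hp.dsmall
  have hd4 := hp.h4
  filter_upwards [base hp, SG hS hp 2 (by norm_num), small 2 0 δ hδ] with
    X hb hsg hsm x V M Z c g N U h hZ hU hcond
  obtain ⟨h8, hl, hN, hq0, hq1, hq2⟩ := hb x Z _ g N _ h.toCls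
  have hX0 : (0:ℝ) < X := by linarith
  rcases logM h h8 with ⟨hM, hM1, hM2, hM3⟩ | hd0
  swap
  · linarith
  have hVp : 0 < V := lt_of_lt_of_le (Real.rpow_pos_of_pos hX0 _) h.hV
  have hl0 : 0 < Real.log X := by linarith
  have hdl0 : 0 ≤ δ * Real.log X := by positivity
  have hx0 := h.hx0
  have hx1 := h.hx1
  have h1' := hp.h1
  have hxM : 2 * x * Real.log M ≤ 2 * x * (θ * Real.log X) := mul_le_mul_of_nonneg_left hM1 (by linarith)
  have ht1 := h.ht1
  have htl : θ * Real.log X ≤ 1/2 * Real.log X := mul_le_mul_of_nonneg_right ht1 hl0.le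
  have h1 := hsg x V M Z c g N U h hZ hU prc M 1 V 0 hM (by linarith) one_pos hVp prc_le
    (fun ρ hρ => (h.hP ρ hρ).1) (by rw [Real.log_one]; linarith) (by linarith)
  refine le_trans h1 ?_
  have hm : (1 - 2 * x) * (θ * Real.log X - 2) ≤ (1 - 2 * x) * Real.log M :=
    mul_le_mul_of_nonneg_left hM2 (by linarith)
  set A := (1/2 - θ) * Real.log X + Real.log Z.card - (2 - 2 * θ) * x * Real.log X with hA
  have hm1 := le_max_left A (4 * A - Real.log X / 2)
  have hm2 := le_max_right A (4 * A - Real.log X / 2)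
  have hA2 : Real.log X / 2 + Real.log Z.card + 0 - 2 * x * Real.log X - Real.log M * (1 - 2 * x) ≤
      A + δ * Real.log X := by
    rw [hA]; linarith
  have : max (Real.log X / 2 + Real.log Z.card + 0 - 2 * x * Real.log X - Real.log M * (1 - 2 * x))
      (4 * (Real.log X / 2 + Real.log Z.card + 0 - 2 * x * Real.log X - Real.log M * (1 - 2 * x)) -
      Real.log X / 2) ≤ max A (4 * A - Real.log X / 2) + 4 * (δ * Real.log X) := by
    apply max_le
    · linarith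
    · linarith
  linarith

theorem classBoundE2a_of (h1 : MVCount) (h2 : HuxleyCount) (h3 : SLemma) (h6 : PowDP) (θ : ℝ) (ht0 : 0.48 ≤ θ)
    (ht1 : θ ≤ 1/2) : ClassBoundE2a θ := by
  intro ε0 δ d e1 e2 e3 e4 e5
  have hp : Par ε0 δ d := ⟨e1, e2, e3, e4, e5⟩
  have hδ := hp.dpos
  have hδ' := hp.dsmall
  have hall : ∀ᶠ X : ℝ in atTop, ∀ k ∈ Finset.Icc 1 ⌈(8:ℝ) / δ⌉₊,
      ∀ (x V : ℝ) (M : ℕ) (Z : Finset ℂ) (c : ℂ → ℂ) (g : ℕ → ℂ) (N : ℕ) (U : Finset ℝ),
      Cls2 θ ε0 δ d X x V M Z c g N U → Z.Nonempty → U.Nonempty → (k : ℝ) * Real.log N ≤ 2 * Real.log X →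
      (Real.log Z.card ≤ max (2 * x * (k * Real.log N))
        (Real.log X / 2 - k * Real.log N * (2 - 6 * x)) + 40 * δ * Real.log X) ∧
      (Real.log Z.card + 2 * Real.log V + 2 * x * (k * Real.log N) ≤ (2 * x - 50 * δ) * Real.log X →
        Real.log U.card ≤ max (Real.log X / 2 + Real.log Z.card + 2 * Real.log V - 2 * x * Real.log X -
          k * Real.log N * (1 - 2 * x))
        (4 * (Real.log X / 2 + Real.log Z.card + 2 * Real.log V - 2 * x * Real.log X -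
          k * Real.log N * (1 - 2 * x)) - Real.log X / 2) + 44 * δ * Real.log X) := by
    rw [Filter.eventually_all_finset]
    intro k hk
    have hk1 : 1 ≤ k := (Finset.mem_Icc.mp hk).1
    filter_upwards [P2 h2 h6 hp k hk1, P4' (θ := θ) h3 h6 hp k hk1]
      with X b c' x V M Z c g N U hcl hZ hU hkq
    exact ⟨b x Z _ g N _ hcl.toCls hZ hkq, c' x V M Z c g N U hcl hZ hU hkq⟩
  obtain ⟨X0, hX0⟩ := (eventually_atTop.mp ((base hp).and ((Q1 (θ := θ) h1 hp).and ((P5' (θ := θ) h3 hp).and hall))))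
  refine ⟨X0, fun X x V M Z c g N U hX f1 f2 f3 f4 f5 f6 f7 f8 g1 g2 g3 g4 f9 f10 f11 f12 => ?_⟩
  obtain ⟨hb, hQ1, hP5, hA⟩ := hX0 X hX
  have hcl : Cls2 θ ε0 δ d X x V M Z c g N U :=
    ⟨ht0, ht1, f1, f2, f3, f4, f5, f6, f7, f8, g1, g2, g3, g4, f9, f10, f11, f12⟩
  obtain ⟨h8, hl, hN, hq0, hq1, hq2⟩ := hb x Z _ g N _ hcl.toCls
  have hXp : (0:ℝ) < X := by linarith
  rcases Finset.eq_empty_or_nonempty U with hU | hU
  · rw [hU]; simp; positivity
  rcases Finset.eq_empty_or_nonempty Z with hZ | hZ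
  · exfalso
    obtain ⟨u, hu⟩ := hU
    have := f12 u hu
    rw [hZ] at this
    simp only [Finset.sum_empty, norm_zero] at this
    have hl6 : 0 < 1 / Real.log X ^ 6 := by positivity
    linarith
  have hz1 := hQ1 x V M Z c g N U hcl hZ
  have hz2 := hP5 x V M Z c g N U hcl hZ hU
  have hA' := fun k hk => hA k hk x V M Z c g N U hcl hZ hU
  have hUc : (0:ℝ) < U.card := by exact_mod_cast hU.card_pos
  set l := Real.log X with hldef
  set q := Real.log N with hqdef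
  have hl0 : 0 < l := by linarith
  have hq : 0 < q := lt_of_lt_of_le (by positivity) hq0
  have hn : δ ≤ 2 * q / l := by
    rw [le_div_iff₀ hl0]; linarith
  have hnp : 0 < 2 * q / l := by positivity
  have key : ∀ k : ℕ, 1 ≤ k → (k : ℝ) ≤ 4 / (2 * q / l) → k ∈ Finset.Icc 1 ⌈(8:ℝ) / δ⌉₊ ∧ (k : ℝ) * q ≤ 2 * l := by
    intro k hk hk4
    have hk5 : (k:ℝ) * (2 * q / l) ≤ 4 := by rwa [le_div_iff₀ hnp] at hk4
    constructor
    · rw [Finset.mem_Icc]
      refine ⟨hk, ?_⟩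
      have : (k:ℝ) ≤ 8 / δ := by
        rw [le_div_iff₀ hδ]
        have : (k:ℝ) * δ ≤ k * (2 * q / l) := mul_le_mul_of_nonneg_left hn (by positivity)
        linarith
      exact_mod_cast le_trans this (Nat.le_ceil _)
    · have : (k:ℝ) * (2 * q / l) = 2 * (k * q) / l := by ring
      rw [this, div_le_iff₀ hl0] at hk5
      linarith
  have he : 2 * (40 * δ * l) / l ≤ 100 * δ := by
    rw [div_le_iff₀ hl0]; nlinarith
  have he' : 2 * (44 * δ * l) / l ≤ 100 * δ := by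
    rw [div_le_iff₀ hl0]; nlinarith
  have htp : 0 < θ := by linarith
  set y : ℝ := x - Real.log V / (θ * l) with hydef
  have hyv : 2 * θ * y = 2 * θ * x - 2 * Real.log V / l := by
    rw [hydef]; field_simp
  have hdl0 : 0 ≤ δ * l := by positivity
  set e : ℝ := 1 - 2 * θ with hedef
  have hyv' : 2 * ((1 + e) * x + (1 - e) * y) = 4 * x - 4 * Real.log V / l := by
    have : 2 * ((1 + e) * x + (1 - e) * y) = 4 * x - 4 * θ * x + 2 * (2 * θ * y) := by rw [hedef]; ring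
    rw [this, hyv]; ring
  have hfin := numericE2 e (by rw [hedef]; linarith) (by rw [hedef]; linarith) ε0 e1 e2 (100 * δ) x (2 * q / l) y
    (2 * Real.log Z.card / l) (2 * Real.log U.card / l)
    (by positivity) (by rw [e3]; linarith) f1 (by linarith) hnp
    (by
      rw [div_le_iff₀ hl0]
      have : (yy x + 100 * δ) * l = 2 * ((yy x / 2 + 45 * δ) * l) + 10 * δ * l := by ring
      rw [this]
      linarith)
    (by
      intro k hk hk4
      obtain ⟨g1, g2⟩ := key k hk hk4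
      obtain ⟨a2, a3⟩ := hA' k g1 g2
      exact conv hl0 a2 (by field_simp) (by field_simp) he)
    (by
      have h9 : 2 * (1 - e) * y = 4 * (θ * x) - 4 * Real.log V / l := by
        have : 2 * (1 - e) * y = 2 * (2 * θ * y) := by rw [hedef]; ring
        rw [this, hyv]; ring
      rw [h9]
      have h10 : 2 * Real.log Z.card / l + 4 * Real.log V / l ≤ 4 * (θ * x) + e + 100 * δ := by
        rw [← add_div, div_le_iff₀ hl0]
        have h11 : (4 * (θ * x) + e + 100 * δ) * l = 2 * ((1/2 - θ + 2 * θ * x) * l) + 100 * (δ * l) := by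
          rw [hedef]; ring
        rw [h11]
        linarith
      linarith)
    (by
      intro hr
      have h11 : Real.log Z.card ≤ ((2 - 2 * θ) * x - 50 * δ) * l := by
        rw [div_le_iff₀ hl0] at hr
        have h12 : (2 * (1 + e) * x - 100 * δ) * l = 2 * (((2 - 2 * θ) * x - 50 * δ) * l) := by
          rw [hedef]; ring
        rw [h12] at hr
        linarith
      exact conv hl0 (hz2 h11) (by rw [hedef]; field_simp; ring) (by rw [hedef]; field_simp; ring) he')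
    (by
      intro k hk hk4 hcond
      obtain ⟨g1, g2⟩ := key k hk hk4
      obtain ⟨a2, a3⟩ := hA' k g1 g2
      have h9 : Real.log Z.card + 2 * Real.log V + 2 * x * (k * q) ≤ (2 * x - 50 * δ) * l := by
        have e6 : 2 * ((1 + e) * x + (1 - e) * y) - 100 * δ = 2 * ((2 * x - 50 * δ) * l - 2 * Real.log V) / l := by
          rw [hyv']; field_simp; ring
        have e7 : 2 * Real.log Z.card / l + 2 * x * (k * (2 * q / l)) = 2 * (Real.log Z.card + 2 * x * (k * q)) / l := by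
          ring
        rw [e6, e7, div_le_div_iff_of_pos_right hl0] at hcond
        linarith
      refine conv hl0 (a3 h9) ?_ ?_ he'
      · rw [hyv']
        field_simp; ring
      · rw [hyv']
        field_simp; ring)
  rw [div_le_iff₀ hl0] at hfin
  rw [← Real.log_le_log_iff hUc (by positivity), Real.log_rpow hXp]
  linarith

/-- the form used by helper60 -/
theorem classBoundE2 (h1 : MVCount) (h2 : HuxleyCount) (h3 : SLemma) (h6 : PowDP) :
    Pool.Agent.Helper60.KS.ClassBoundE2 := by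
  intro ε0 δ d e1 e2 e3 e4 e5
  obtain ⟨X0, h⟩ := classBoundE2a_of h1 h2 h3 h6 0.495 (by norm_num) (by norm_num) (ε0 / 10) δ d (by positivity)
    (by linarith) (by rw [e3]; ring) e4 e5
  refine ⟨max X0 1, fun X x V Z c g N M U hX f1 f2 hM0 hM1 hV f3 f4 f5 f6 f7 f8 f9 f10 f11 f12 f13 => ?_⟩
  have hX1 : 1 ≤ X := le_trans (le_max_right _ _) hX
  have h3 := h X x V M Z c g N U (le_trans (le_max_left _ _) hX) (by linarith) f2 f3 f4 f5 f6 f7 f8 hM0 hM1
    (le_trans (Real.rpow_le_rpow_of_exponent_le hX1 (by norm_num)) hV) f9 f10 f11 f12 f13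
  exact le_trans h3 (Real.rpow_le_rpow_of_exponent_le hX1 (by norm_num))

end Pool.Agent.Helper35.KE
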